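import Pool.Agent.K3h8.NX.X7c

/-! NX brick X7: from the second order equations to the first order equations. -/

set_option autoImplicit false
open MeasureTheory Filter Topology Set Metric

namespace Pool.Agent.K3h8.NX.X7

open Pool.Agent.K3h35.NX Pool.Agent.Results.MP_e9f444_mp.ManyStrings

variable {ε G : ℝ} {η : Plane → ℝ} {φ : Plane → ℂ} {A : Fin 2 → Plane → ℝ}

lemma pd_congr_open {F : Type} [NormedAddCommGroup F] [NormedSpace ℝ F] {f g : Plane → F}
    {O : Set Plane} (hO : IsOpen O) (h : ∀ x ∈ O, f x = g x) (j : Fin 2) {x : Plane}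
    (hx : x ∈ O) : pd j f x = pd j g x := by
  unfold pd
  have : f =ᶠ[𝓝 x] g := Filter.eventually_of_mem (hO.mem_nhds hx) h
  rw [this.fderiv_eq]

lemma pd_zero_open {F : Type} [NormedAddCommGroup F] [NormedSpace ℝ F] {f : Plane → F}
    {O : Set Plane} (hO : IsOpen O) (h : ∀ x ∈ O, f x = 0) (j : Fin 2) {x : Plane}
    (hx : x ∈ O) : pd j f x = 0 := by
  rw [pd_congr_open (g := fun _ => 0) hO h j hx]
  exact pd_const 0 j x

/-- `Q` near a zero of `φ` -/
lemma Q_near {h : Plane → ℂ} {p : Plane} {m : ℕ} (hh : Smooth h)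
    (hφ : ∀ x, φ x = zc p x ^ (m + 1) * h x) (x : Plane) :
    Qf φ A x = zc p x ^ m * (2 * (m + 1) * h x + zc p x * (covD A 0 h x - Complex.I * covD A 1 h x))
    := by
  have hz := (hol_zc p).pow (m + 1)
  have hφ' : φ = fun x => zc p x ^ (m + 1) * h x := funext hφ
  have h0 : pd 0 (fun x => zc p x ^ (m + 1)) x = (m + 1) * zc p x ^ m := by
    have hd : HasFDerivAt (zc p) (fderiv ℝ (zc p) x) x :=
      ((smooth_zc p).diff x).hasFDerivAt
    have h2 := hd.pow (m + 1)
    have h3 : pd 0 (fun x => zc p x ^ (m + 1)) x = ((m + 1 : ℕ) : ℂ) * zc p x ^ m * pd 0 (zc p) x := by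
      unfold pd
      have h4 : HasFDerivAt (fun x => zc p x ^ (m + 1))
        (((m + 1 : ℕ) • zc p x ^ (m + 1 - 1)) • fderiv ℝ (zc p) x) x := h2
      rw [h4.fderiv]
      simp
    rw [h3, pd_zc]
    push_cast
    simp
  have h1 := hz.2 x
  unfold Qf covD
  rw [hφ', pd_mulC hz.1 hh, pd_mulC hz.1 hh, h1, h0]
  linear_combination (-((m + 1) * zc p x ^ m * h x)) * Complex.I_sq

theorem t_X7 : St_X7 := by
  intro ε G η φ A K p n hK hn hs hzero hmult
  have hη := hs.smooth_metric
  have hφ := hs.smooth_higgs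
  have hA := hs.smooth_gauge
  have hPs : Smooth (Pf φ A) := smooth_Pf hφ hA
  have hbs : Smooth (bp ε η φ A) := smooth_bp hη hφ hA
  have hSfin : (range p).Finite := finite_range p
  have hSφ : ∀ x ∈ (range p)ᶜ, φ x ≠ 0 := by
    intro x hx h0
    obtain ⟨k, hk⟩ := (hzero x).1 h0
    exact hx ⟨k, hk.symm⟩
  -- an open set on which `b_+` vanishes
  obtain ⟨O, hO, hne, hOS, hOP⟩ : ∃ O : Set Plane, IsOpen O ∧ O.Nonempty ∧ O ⊆ (range p)ᶜ ∧
      ∀ x ∈ O, Pf φ A x = 0 := by
    let k : Fin K := ⟨0, hK⟩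
    obtain ⟨h, hh, hp0, hφh⟩ := hmult k
    obtain ⟨m, hm⟩ : ∃ m, n k = m + 1 := ⟨n k - 1, by have := hn k; omega⟩
    have hφ' : ∀ x, φ x = zc (p k) x ^ (m + 1) * h x := by
      intro x; rw [hφh x, hm]; rfl
    set g : Plane → ℂ := fun x => 2 * (m + 1) * h x +
      zc (p k) x * (covD A 0 h x - Complex.I * covD A 1 h x) with hg
    have hgc : Continuous g := by
      have e1 : Continuous h := hh.continuous
      have e2 : Continuous (covD A 0 h) := (Smooth.covD hA hh 0).continuous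
      have e3 : Continuous (covD A 1 h) := (Smooth.covD hA hh 1).continuous
      have e4 : Continuous (zc (p k)) := (smooth_zc (p k)).continuous
      exact (continuous_const.mul e1).add (e4.mul (e2.sub (continuous_const.mul e3)))
    have hgp : g (p k) ≠ 0 := by
      rw [hg]
      simp only [(zc_eq_zero (p k) (p k)).2 rfl, zero_mul, add_zero]
      refine mul_ne_zero (mul_ne_zero two_ne_zero ?_) hp0
      exact_mod_cast Nat.succ_ne_zero m
    have hop : IsOpen {x | g x ≠ 0} := isOpen_ne_fun hgc continuous_const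
    have hop2 : IsOpen ({x | g x ≠ 0} ∩ (range p)ᶜ) := hop.inter hSfin.isClosed.isOpen_compl
    have hdense : Dense (range p)ᶜ :=
      hSfin.countable.dense_compl ℝ
    refine ⟨{x | g x ≠ 0} ∩ (range p)ᶜ, hop2, ?_, inter_subset_right, ?_⟩
    · exact hdense.inter_open_nonempty _ hop ⟨p k, hgp⟩
    · rintro x ⟨hx1, hx2⟩
      have hQ : Qf φ A x ≠ 0 := by
        rw [Q_near hh hφ' x]
        refine mul_ne_zero (pow_ne_zero _ ?_) hx1
        intro h0
        exact hx2 ⟨k, ((zc_eq_zero _ _).1 h0).symm⟩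
      exact (mul_eq_zero.1 (PQ hs x)).resolve_right hQ
  have hOb : ∀ x ∈ O, bp ε η φ A x = 0 := by
    intro x hx
    have h1 := DP hs x
    have h2 : ∀ j, covD A j (Pf φ A) x = 0 := by
      intro j
      unfold covD
      rw [pd_zero_open hO hOP j hx, hOP x hx]; ring
    rw [h2, h2, mul_zero, sub_zero] at h1
    have h3 := (mul_eq_zero.1 h1.symm).resolve_right (hSφ x (hOS hx))
    have h4 : Real.exp (η x) * bp ε η φ A x = 0 := by exact_mod_cast h3
    exact (mul_eq_zero.1 h4).resolve_left (Real.exp_pos _).ne'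
  have hn2 : ∀ x ∈ (range p)ᶜ, ‖φ x‖ ^ 2 ≠ 0 := fun x hx => by
    have := norm_pos_iff.2 (hSφ x hx)
    positivity
  have hcφ : Continuous fun x => ‖φ x‖ ^ 2 := (hφ.continuous.norm).pow 2
  have hall : ∀ x ∈ (range p)ᶜ, bp ε η φ A x = 0 := by
    refine uc_plane (range p) hSfin (bp ε η φ A)
      (fun i x => -(pd i (bp ε η φ A) x / ‖φ x‖ ^ 2))
      (fun x => -(Real.exp (η x) * ‖φ x‖ ^ 2)) hbs ?_ ?_ ?_ O hO hne hOS hOb
    · intro i
      exact (((hbs.pd i).continuous.continuousOn).div hcφ.continuousOn hn2).neg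
    · exact ((Real.continuous_exp.comp hη.continuous).mul hcφ).neg.continuousOn
    · intro x hx
      have h1 := lap_bp hs x
      have h2 := grad_sq hs x
      have h3 := hn2 x hx
      have h4 : ‖Pf φ A x‖ ^ 2 = (pd 0 (bp ε η φ A) x ^ 2 + pd 1 (bp ε η φ A) x ^ 2) /
          ‖φ x‖ ^ 2 := by
        rw [eq_div_iff h3, h2]; ring
      rw [h1, h4]
      ring
  have hSop : IsOpen (range p)ᶜ := hSfin.isClosed.isOpen_compl
  have hallP : ∀ x ∈ (range p)ᶜ, Pf φ A x = 0 := by
    intro x hx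
    have h2 := grad_sq hs x
    rw [pd_zero_open hSop hall 0 hx, pd_zero_open hSop hall 1 hx] at h2
    have h3 : ‖Pf φ A x‖ ^ 2 = 0 := by
      have : ‖φ x‖ ^ 2 * ‖Pf φ A x‖ ^ 2 = 0 := by rw [← h2]; ring
      exact (mul_eq_zero.1 this).resolve_left (hn2 x hx)
    exact norm_eq_zero.1 (pow_eq_zero_iff two_ne_zero |>.1 h3)
  have hdense : Dense (range p)ᶜ := hSfin.countable.dense_compl ℝ
  have hb0 : ∀ x, bp ε η φ A x = 0 := by
    have h1 : bp ε η φ A = fun _ => 0 :=
      Continuous.ext_on hdense hbs.continuous continuous_const fun x hx => hall x hx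
    exact fun x => congrFun h1 x
  have hP0 : ∀ x, Pf φ A x = 0 := by
    have h1 : Pf φ A = fun _ => 0 :=
      Continuous.ext_on hdense hPs.continuous continuous_const fun x hx => hallP x hx
    exact fun x => congrFun h1 x
  refine ⟨fun x => ?_, fun x => ?_⟩
  · have h1 := hP0 x
    unfold Pf at h1
    linear_combination (-Complex.I) * h1 + covD A 1 φ x * Complex.I_sq
  · have h1 := hb0 x
    unfold bp Bf at h1
    have e1 : Real.exp (-η x) * Real.exp (η x) = 1 := by rw [← Real.exp_add]; simp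
    linear_combination Real.exp (η x) * h1 - field A 0 1 x * e1

end Pool.Agent.K3h8.NX.X7
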