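import Pool.Agent.K3h35.NX.Stm

/-! NX brick X7, part 1: the pointwise identities. -/

set_option autoImplicit false
open MeasureTheory Filter Topology Set Metric

namespace Pool.Agent.K3h8.NX.X7

open Pool.Agent.H314.Dir Pool.Agent.K3h35.GS Pool.Agent.Results.MP_e9f444_mp.ManyStrings

variable {ε G : ℝ} {η : Plane → ℝ} {φ : Plane → ℂ} {A : Fin 2 → Plane → ℝ}

/-- `P = D_0 φ + i D_1 φ` -/
noncomputable def Pf (φ : Plane → ℂ) (A : Fin 2 → Plane → ℝ) (x : Plane) : ℂ :=
  covD A 0 φ x + Complex.I * covD A 1 φ x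

/-- `Q = D_0 φ - i D_1 φ` -/
noncomputable def Qf (φ : Plane → ℂ) (A : Fin 2 → Plane → ℝ) (x : Plane) : ℂ :=
  covD A 0 φ x - Complex.I * covD A 1 φ x

/-- `B = e^{-η} F_01` -/
noncomputable def Bf (η : Plane → ℝ) (A : Fin 2 → Plane → ℝ) (x : Plane) : ℝ :=
  Real.exp (-η x) * field A 0 1 x

/-- `b_+` -/
noncomputable def bp (ε : ℝ) (η : Plane → ℝ) (φ : Plane → ℂ) (A : Fin 2 → Plane → ℝ)
    (x : Plane) : ℝ := 1 / 2 * (‖φ x‖ ^ 2 - ε ^ 2) + Bf η A x

lemma smooth_Pf (hφ : Smooth φ) (hA : ∀ j, Smooth (A j)) : Smooth (Pf φ A) :=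
  ContDiff.add (Smooth.covD hA hφ 0) (ContDiff.mul contDiff_const (Smooth.covD hA hφ 1))

lemma smooth_Bf (hη : Smooth η) (hA : ∀ j, Smooth (A j)) : Smooth (Bf η A) :=
  ContDiff.mul (ContDiff.exp (ContDiff.neg hη)) (ContDiff.sub ((hA 1).pd 0) ((hA 0).pd 1))

lemma smooth_bp (hη : Smooth η) (hφ : Smooth φ) (hA : ∀ j, Smooth (A j)) :
    Smooth (bp ε η φ A) :=
  ContDiff.add (ContDiff.mul contDiff_const (ContDiff.sub (ContDiff.norm_sq ℝ hφ) contDiff_const))
    (smooth_Bf hη hA)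

/-- the stress equations -/
lemma stress_alg (hs : IsSolution ε G η φ A) (x : Plane) :
    ‖covD A 0 φ x‖ ^ 2 = ‖covD A 1 φ x‖ ^ 2 ∧
    (covD A 0 φ x * (starRingEnd ℂ) (covD A 1 φ x)).re = 0 ∧
    Bf η A x ^ 2 = 1 / 4 * (‖φ x‖ ^ 2 - ε ^ 2) ^ 2 := by
  have h00 := hs.stress_zero 0 0 x
  have h11 := hs.stress_zero 1 1 x
  have h01 := hs.stress_zero 0 1 x
  have hre : ∀ w : ℂ, (w * (starRingEnd ℂ) w).re = ‖w‖ ^ 2 := fun w => by
    rw [normSq_eq, Complex.ofReal_re]
  have hre' : ∀ w : ℂ, ((starRingEnd ℂ) w * w).re = ‖w‖ ^ 2 := fun w => by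
    rw [mul_comm, normSq_eq, Complex.ofReal_re]
  have hre2 : ((starRingEnd ℂ) (covD A 0 φ x) * covD A 1 φ x).re =
      (covD A 0 φ x * (starRingEnd ℂ) (covD A 1 φ x)).re := by
    simp [Complex.mul_re]
  have hE : energyDensity ε η φ A x = 1 / 2 * Bf η A x ^ 2 + 1 / 2 * Real.exp (-η x) *
      (‖covD A 0 φ x‖ ^ 2 + ‖covD A 1 φ x‖ ^ 2) + 1 / 8 * (‖φ x‖ ^ 2 - ε ^ 2) ^ 2 := by
    unfold energyDensity Bf
    simp only [Fin.sum_univ_two, gUp, if_true, if_neg (by decide : ¬ (0 : Fin 2) = 1),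
      if_neg (by decide : ¬ (1 : Fin 2) = 0), field_self, field_swap, normSq_eq,
      zero_mul, mul_zero, add_zero, zero_add, Complex.ofReal_zero]
    rw [← Complex.ofReal_mul, ← Complex.ofReal_mul, ← Complex.ofReal_add, Complex.ofReal_re]
    ring
  have e1 : Real.exp (-η x) * Real.exp (η x) = 1 := by rw [← Real.exp_add]; simp
  have hpos := Real.exp_pos (η x)
  unfold stress at h00 h11 h01
  rw [hE] at h00 h11 h01
  simp only [Fin.sum_univ_two, gUp, gLow, if_true, Complex.add_re,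
    if_neg (by decide : ¬ (0 : Fin 2) = 1),
    if_neg (by decide : ¬ (1 : Fin 2) = 0), field_self, field_swap,
    zero_mul, mul_zero, add_zero, zero_add, sub_zero, hre, hre', hre2] at h00 h11 h01
  have hB : Real.exp (-η x) * field A 0 1 x ^ 2 = Real.exp (η x) * Bf η A x ^ 2 := by
    unfold Bf
    linear_combination (-(Real.exp (-η x) * field A 0 1 x ^ 2)) * e1
  have h1 : ‖covD A 0 φ x‖ ^ 2 = ‖covD A 1 φ x‖ ^ 2 := by
    linear_combination h00 - h11
  refine ⟨h1, by linarith, ?_⟩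
  have h2 : Real.exp (η x) * (Bf η A x ^ 2 - 1 / 4 * (‖φ x‖ ^ 2 - ε ^ 2) ^ 2) = 0 := by
    linear_combination h00 + h11 - 2 * hB + (‖covD A 0 φ x‖ ^ 2 + ‖covD A 1 φ x‖ ^ 2) * e1
  have h3 := (mul_eq_zero.1 h2).resolve_left hpos.ne'
  linarith

/-- `P Q = 0` -/
lemma PQ (hs : IsSolution ε G η φ A) (x : Plane) : Pf φ A x * Qf φ A x = 0 := by
  obtain ⟨h1, h2, _⟩ := stress_alg hs x
  have e : Pf φ A x * Qf φ A x = covD A 0 φ x ^ 2 + covD A 1 φ x ^ 2 := by
    unfold Pf Qf
    linear_combination (-(covD A 1 φ x ^ 2)) * Complex.I_sq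
  rw [e]
  set u := covD A 0 φ x
  set w := covD A 1 φ x
  rw [← Complex.normSq_eq_norm_sq, ← Complex.normSq_eq_norm_sq, Complex.normSq_apply,
    Complex.normSq_apply] at h1
  rw [Complex.mul_re, Complex.conj_re, Complex.conj_im] at h2
  by_cases hw : w = 0
  · have hu : u = 0 := by
      rw [hw] at h1
      simp only [Complex.zero_re, Complex.zero_im, mul_zero, add_zero] at h1
      apply Complex.ext
      · simp only [Complex.zero_re]; nlinarith [sq_nonneg u.re, sq_nonneg u.im]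
      · simp only [Complex.zero_im]; nlinarith [sq_nonneg u.re, sq_nonneg u.im]
    rw [hw, hu]; ring
  · -- (u.re, u.im) is orthogonal to w and of the same length
    have hn : 0 < w.re * w.re + w.im * w.im := by
      rw [← Complex.normSq_apply]; exact Complex.normSq_pos.2 hw
    apply Complex.ext
    · simp only [Complex.add_re, sq, Complex.mul_re, Complex.zero_re]
      have key : (w.re * w.re + w.im * w.im) *
          (u.re * u.re - u.im * u.im + (w.re * w.re - w.im * w.im)) = 0 := by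
        have h4 : (u.re * w.re) ^ 2 = (u.im * w.im) ^ 2 := by
          have : u.re * w.re = -(u.im * w.im) := by linarith
          rw [this]; ring
        nlinarith
      exact (mul_eq_zero.1 key).resolve_left hn.ne'
    · simp only [Complex.add_im, sq, Complex.mul_im, Complex.zero_im]
      have key : (w.re * w.re + w.im * w.im) *
          (u.re * u.im + u.im * u.re + (w.re * w.im + w.im * w.re)) = 0 := by
        have h5 : u.re * w.re = -(u.im * w.im) := by linarith
        linear_combination (2 * w.im * w.re) * (h1) * (-1) + (2 * u.im * w.re + 2 * u.re * w.im) * h5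
      exact (mul_eq_zero.1 key).resolve_left hn.ne'

end Pool.Agent.K3h8.NX.X7
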