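import Pool.Agent.K3h8.NX.X7a

/-! NX brick X7, part 2: the differential identities. -/

set_option autoImplicit false
open MeasureTheory Filter Topology Set Metric

namespace Pool.Agent.K3h8.NX.X7

open Pool.Agent.H314.Dir Pool.Agent.K3h35.GS Pool.Agent.Results.MP_e9f444_mp.ManyStrings

variable {ε G : ℝ} {η : Plane → ℝ} {φ : Plane → ℂ} {A : Fin 2 → Plane → ℝ}

lemma pd_const {F : Type} [NormedAddCommGroup F] [NormedSpace ℝ F] (c : F) (j : Fin 2)
    (x : Plane) : pd j (fun _ : Plane => c) x = 0 := by unfold pd; simp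

lemma maxaux (r b : ℝ) (u w : ℂ) (h : ((r * b : ℝ) : ℂ) =
    Complex.I / 2 * ((r : ℂ) * (u * (starRingEnd ℂ) w - (starRingEnd ℂ) u * w))) (hr : r ≠ 0) :
    b = ((starRingEnd ℂ) u * w).im := by
  have h1 := congrArg Complex.re h
  have e : (Complex.I / 2 * ((r : ℂ) * (u * (starRingEnd ℂ) w - (starRingEnd ℂ) u * w))).re =
      r * ((starRingEnd ℂ) u * w).im := by
    simp [Complex.mul_re, Complex.mul_im, Complex.div_re, Complex.div_im]
    ring
  rw [e, Complex.ofReal_re] at h1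
  exact mul_left_cancel₀ hr h1

/-- Maxwell's equations -/
lemma maxwell' (hs : IsSolution ε G η φ A) (x : Plane) :
    pd 1 (Bf η A) x = ((starRingEnd ℂ) (φ x) * covD A 0 φ x).im ∧
    pd 0 (Bf η A) x = -((starRingEnd ℂ) (φ x) * covD A 1 φ x).im := by
  have e1 : ∀ y, Real.exp (-η y) * Real.exp (η y) = 1 := fun y => by
    rw [← Real.exp_add]; simp
  have hg : ∀ j k j' k' : Fin 2, ¬ (j = k ∧ j' = k') →
      (fun y => gUp η j k y * gUp η j' k' y * volDen η y * field A k k' y) = fun _ => 0 := by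
    intro j k j' k' hjk
    funext y
    unfold gUp
    by_cases h1 : j = k
    · have h2 : ¬ j' = k' := fun h2 => hjk ⟨h1, h2⟩
      rw [if_neg h2]; simp
    · rw [if_neg h1]; simp
  have hself : ∀ j k : Fin 2, (fun y => gUp η j k y * gUp η j k y * volDen η y *
      field A k k y) = fun _ => 0 := by
    intro j k
    funext y
    rw [field_self]; ring
  have hz : ∀ j, pd j (fun _ : Plane => (0 : ℝ)) x = 0 := fun j => pd_const 0 j x
  have hF01 : (fun y => gUp η 0 0 y * gUp η 1 1 y * volDen η y * field A 0 1 y) = Bf η A := by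
    funext y
    unfold gUp volDen Bf
    rw [if_pos rfl, if_pos rfl]
    linear_combination (Real.exp (-η y) * field A 0 1 y) * e1 y
  have hF10 : (fun y => gUp η 1 1 y * gUp η 0 0 y * volDen η y * field A 1 0 y) =
      fun y => (fun _ => (-1 : ℝ)) y * Bf η A y := by
    funext y
    unfold gUp volDen Bf
    rw [if_pos rfl, if_pos rfl, field_swap]
    linear_combination (-(Real.exp (-η y) * field A 0 1 y)) * e1 y
  have hBs : Smooth (Bf η A) := smooth_Bf hs.smooth_metric hs.smooth_gauge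
  have hm0 : pd 0 (fun y => (fun _ => (-1 : ℝ)) y * Bf η A y) x = - pd 0 (Bf η A) x := by
    rw [pd_mulR contDiff_const hBs, pd_const]; ring
  have hpos := Real.exp_pos (η x)
  have hpos' := Real.exp_pos (-η x)
  have hm0' := hs.maxwell 0 x
  have hm1' := hs.maxwell 1 x
  simp only [Fin.sum_univ_two, hg 0 1 0 0 (by decide), hg 0 1 0 1 (by decide),
    hg 0 0 0 1 (by decide), hg 0 1 1 0 (by decide), hg 0 1 1 1 (by decide),
    hg 0 0 1 0 (by decide), hself, hz, add_zero, zero_add, hF01] at hm0'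
  simp only [Fin.sum_univ_two, hg 1 0 0 0 (by decide), hg 1 0 0 1 (by decide),
    hg 1 1 0 1 (by decide), hg 1 0 1 0 (by decide), hg 1 0 1 1 (by decide),
    hg 1 1 1 0 (by decide), hself, hz, add_zero, zero_add, hF10, hm0] at hm1'
  have hv : (volDen η x)⁻¹ = Real.exp (-η x) := by unfold volDen; rw [Real.exp_neg]
  unfold gUp at hm0' hm1'
  simp only [if_true, if_neg (by decide : ¬ (0 : Fin 2) = 1), Complex.ofReal_zero, zero_mul,
    add_zero, hv] at hm0'
  simp only [if_true, if_neg (by decide : ¬ (1 : Fin 2) = 0), Complex.ofReal_zero, zero_mul,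
    zero_add, hv] at hm1'
  refine ⟨maxaux _ _ _ _ hm0' hpos'.ne', ?_⟩
  have := maxaux _ _ _ _ hm1' hpos'.ne'
  linarith

lemma pd_half (hφ : Smooth φ) (j : Fin 2) (x : Plane) :
    pd j (fun y => 1 / 2 * (‖φ y‖ ^ 2 - ε ^ 2)) x = ((starRingEnd ℂ) (φ x) * covD A j φ x).re := by
  have hsq : Smooth (fun y => ‖φ y‖ ^ 2) := ContDiff.norm_sq ℝ hφ
  have hd : Smooth (fun y => ‖φ y‖ ^ 2 - (fun _ : Plane => ε ^ 2) y) :=
    ContDiff.sub hsq contDiff_const
  have e : (fun y => 1 / 2 * (‖φ y‖ ^ 2 - ε ^ 2)) =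
      fun y => (fun _ : Plane => (1 / 2 : ℝ)) y * (‖φ y‖ ^ 2 - (fun _ : Plane => ε ^ 2) y) := rfl
  rw [e, pd_mulR contDiff_const hd, pd_const, pd_sub' hsq contDiff_const, pd_const,
    pd_normSq (A := A) hφ]
  ring

/-- the gradient of `b_+` -/
lemma grad_bp (hs : IsSolution ε G η φ A) (x : Plane) :
    pd 0 (bp ε η φ A) x = ((starRingEnd ℂ) (φ x) * Pf φ A x).re ∧
    pd 1 (bp ε η φ A) x = ((starRingEnd ℂ) (φ x) * Pf φ A x).im := by
  have hφ := hs.smooth_higgs
  have hBs : Smooth (Bf η A) := smooth_Bf hs.smooth_metric hs.smooth_gauge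
  have hd : Smooth (fun y => 1 / 2 * (‖φ y‖ ^ 2 - ε ^ 2)) :=
    ContDiff.mul contDiff_const (ContDiff.sub (ContDiff.norm_sq ℝ hφ) contDiff_const)
  have e : bp ε η φ A = fun y => (fun y => 1 / 2 * (‖φ y‖ ^ 2 - ε ^ 2)) y + Bf η A y := rfl
  obtain ⟨h1, h0⟩ := maxwell' hs x
  rw [e, pd_add' hd hBs, pd_add' hd hBs, pd_half (A := A) hφ, pd_half (A := A) hφ, h0, h1]
  unfold Pf
  constructor
  · simp only [mul_add, Complex.add_re]
    have : ((starRingEnd ℂ) (φ x) * (Complex.I * covD A 1 φ x)).re =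
        -((starRingEnd ℂ) (φ x) * covD A 1 φ x).im := by
      have e2 : (starRingEnd ℂ) (φ x) * (Complex.I * covD A 1 φ x) =
        Complex.I * ((starRingEnd ℂ) (φ x) * covD A 1 φ x) := by ring
      rw [e2, Complex.I_mul_re]
    rw [this]
  · simp only [mul_add, Complex.add_im]
    have : ((starRingEnd ℂ) (φ x) * (Complex.I * covD A 1 φ x)).im =
        ((starRingEnd ℂ) (φ x) * covD A 1 φ x).re := by
      have e2 : (starRingEnd ℂ) (φ x) * (Complex.I * covD A 1 φ x) =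
        Complex.I * ((starRingEnd ℂ) (φ x) * covD A 1 φ x) := by ring
      rw [e2, Complex.I_mul_im]
    rw [this]; ring

lemma covD_add {ψ χ : Plane → ℂ} (hψ : Smooth ψ) (hχ : Smooth χ) (j : Fin 2) (x : Plane) :
    covD A j (fun y => ψ y + χ y) x = covD A j ψ x + covD A j χ x := by
  unfold covD
  rw [pd_add' hψ hχ]; ring

/-- the Higgs equation -/
lemma higgs' (hs : IsSolution ε G η φ A) (x : Plane) :
    covD A 0 (covD A 0 φ) x + covD A 1 (covD A 1 φ) x =
      ((1 / 2 * Real.exp (η x) * (‖φ x‖ ^ 2 - ε ^ 2) : ℝ) : ℂ) * φ x := by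
  have e1 : ∀ y, Real.exp (-η y) * Real.exp (η y) = 1 := fun y => by
    rw [← Real.exp_add]; simp
  have h := hs.higgs x
  have hg1 : ∀ j : Fin 2, (fun y => ((gUp η j j y * volDen η y : ℝ) : ℂ) * covD A j φ y) =
      covD A j φ := by
    intro j
    funext y
    unfold gUp volDen
    rw [if_pos rfl, e1 y]
    simp
  have hg0 : ∀ j k : Fin 2, j ≠ k → (fun y => ((gUp η j k y * volDen η y : ℝ) : ℂ) *
      covD A k φ y) = fun _ => 0 := by
    intro j k hjk
    funext y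
    unfold gUp volDen
    rw [if_neg hjk]
    simp
  have hz : ∀ j, covD A j (fun _ => (0 : ℂ)) x = 0 := by
    intro j; unfold covD pd; simp
  simp only [Fin.sum_univ_two, hg1, hg0 0 1 (by decide), hg0 1 0 (by decide), hz, add_zero,
    zero_add] at h
  have hne : ((volDen η x : ℝ) : ℂ) ≠ 0 := by
    unfold volDen; exact_mod_cast (Real.exp_pos (η x)).ne'
  rw [inv_mul_eq_iff_eq_mul₀ hne] at h
  rw [h]
  unfold volDen
  push_cast
  ring

/-- `(D_0 - i D_1) P = e^η b_+ φ` -/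
lemma DP (hs : IsSolution ε G η φ A) (x : Plane) :
    covD A 0 (Pf φ A) x - Complex.I * covD A 1 (Pf φ A) x =
      ((Real.exp (η x) * bp ε η φ A x : ℝ) : ℂ) * φ x := by
  have hφ := hs.smooth_higgs
  have hA := hs.smooth_gauge
  have h0 : Smooth (covD A 0 φ) := Smooth.covD hA hφ 0
  have h1 : Smooth (covD A 1 φ) := Smooth.covD hA hφ 1
  have h1' : Smooth (fun y => Complex.I * covD A 1 φ y) := ContDiff.mul contDiff_const h1
  have e : Pf φ A = fun y => covD A 0 φ y + (fun y => Complex.I * covD A 1 φ y) y := rfl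
  have e1 : Real.exp (-η x) * Real.exp (η x) = 1 := by
    rw [← Real.exp_add]; simp
  rw [e, covD_add h0 h1', covD_add h0 h1', covD_smul h1, covD_smul h1]
  have hh := higgs' hs x
  have hc := covD_comm hA hφ 0 1 x
  unfold bp Bf
  have e2 : ((Real.exp (η x) * (1 / 2 * (‖φ x‖ ^ 2 - ε ^ 2) + Real.exp (-η x) * field A 0 1 x) :
      ℝ) : ℂ) = ((1 / 2 * Real.exp (η x) * (‖φ x‖ ^ 2 - ε ^ 2) : ℝ) : ℂ) + (field A 0 1 x : ℂ) := by
    rw [← Complex.ofReal_add]
    congr 1
    linear_combination field A 0 1 x * e1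
  rw [e2]
  linear_combination hh + Complex.I * hc -
    (covD A 1 (covD A 1 φ) x + (field A 0 1 x : ℂ) * φ x) * Complex.I_sq

/-- Laplace equation of `b_+` -/
lemma lap_bp (hs : IsSolution ε G η φ A) (x : Plane) :
    pd 0 (pd 0 (bp ε η φ A)) x + pd 1 (pd 1 (bp ε η φ A)) x =
      Real.exp (η x) * ‖φ x‖ ^ 2 * bp ε η φ A x + ‖Pf φ A x‖ ^ 2 := by
  have hφ := hs.smooth_higgs
  have hA := hs.smooth_gauge
  have hP : Smooth (Pf φ A) := smooth_Pf hφ hA
  have hiP : Smooth (fun y => (-Complex.I) * Pf φ A y) := ContDiff.mul contDiff_const hP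
  have e0 : pd 0 (bp ε η φ A) = fun y => ((starRingEnd ℂ) (φ y) * Pf φ A y).re :=
    funext fun y => (grad_bp hs y).1
  have e1 : pd 1 (bp ε η φ A) = fun y => ((starRingEnd ℂ) (φ y) * ((-Complex.I) * Pf φ A y)).re := by
    funext y
    rw [(grad_bp hs y).2]
    have e2 : (starRingEnd ℂ) (φ y) * ((-Complex.I) * Pf φ A y) =
      -(Complex.I * ((starRingEnd ℂ) (φ y) * Pf φ A y)) := by ring
    rw [e2, Complex.neg_re, Complex.I_mul_re, neg_neg]
  rw [e0, e1, pd_reConj (A := A) hφ hP, pd_reConj (A := A) hφ hiP, covD_smul hP, ← Complex.add_re]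
  have hD := DP hs x
  have e3 : (starRingEnd ℂ) (covD A 0 φ x) * Pf φ A x + (starRingEnd ℂ) (φ x) * covD A 0 (Pf φ A) x +
      ((starRingEnd ℂ) (covD A 1 φ x) * ((-Complex.I) * Pf φ A x) +
        (starRingEnd ℂ) (φ x) * ((-Complex.I) * covD A 1 (Pf φ A) x)) =
      ((Real.exp (η x) * ‖φ x‖ ^ 2 * bp ε η φ A x + ‖Pf φ A x‖ ^ 2 : ℝ) : ℂ) := by
    have e4 := normSq_eq (φ x)
    have e5 := normSq_eq (Pf φ A x)
    have e6 : (starRingEnd ℂ) (Pf φ A x) =
        (starRingEnd ℂ) (covD A 0 φ x) - Complex.I * (starRingEnd ℂ) (covD A 1 φ x) := by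
      unfold Pf
      rw [map_add, map_mul, Complex.conj_I]; ring
    rw [e6] at e5
    push_cast at e4 e5 hD ⊢
    linear_combination (starRingEnd ℂ) (φ x) * hD + e5 +
      (Complex.exp (η x : ℂ) * (bp ε η φ A x : ℂ)) * e4
  rw [e3, Complex.ofReal_re]

/-- `|∇ b_+|² = |φ|² |P|²` -/
lemma grad_sq (hs : IsSolution ε G η φ A) (x : Plane) :
    pd 0 (bp ε η φ A) x ^ 2 + pd 1 (bp ε η φ A) x ^ 2 = ‖φ x‖ ^ 2 * ‖Pf φ A x‖ ^ 2 := by
  rw [(grad_bp hs x).1, (grad_bp hs x).2]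
  have : ((starRingEnd ℂ) (φ x) * Pf φ A x).re ^ 2 + ((starRingEnd ℂ) (φ x) * Pf φ A x).im ^ 2 =
      ‖(starRingEnd ℂ) (φ x) * Pf φ A x‖ ^ 2 := by
    rw [← Complex.normSq_eq_norm_sq, Complex.normSq_apply]; ring
  rw [this, norm_mul, RCLike.norm_conj, mul_pow]

end Pool.Agent.K3h8.NX.X7
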