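import Pool.Agent.K3h8.NX.X7b
import Pool.Agent.R235.FS.UC
import Pool.Agent.R235.FS.U1
import Pool.Agent.R235.FS.CW
import Pool.Agent.R235.FS.CV
import Pool.Agent.R235.FS.CJ
import Pool.Agent.R235.FS.I1
import Pool.Agent.R235.FS.I2
import Pool.Agent.R235.FS.IB
import Pool.Agent.R235.FS.WT

/-! NX brick X7, part 3: unique continuation in the plane. -/

set_option autoImplicit false
open MeasureTheory Filter Topology Set Metric
open scoped ContDiff

namespace Pool.Agent.K3h8.NX.X7

open Pool.Agent.Results.MP_e9f444_mp.ManyStrings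

theorem hUC : Pool.Agent.R235.FS.S_UC :=
  Pool.Agent.R235.FS.PUC.t_UC (Pool.Agent.R235.FS.PU1.t_U1 (Pool.Agent.R235.FS.PCW.t_CW
    (Pool.Agent.R235.FS.PCV.t_CV (Pool.Agent.R235.FS.PI1.t_I1 Pool.Agent.R235.FS.PIB.t_IB)
      (Pool.Agent.R235.FS.PI2.t_I2 Pool.Agent.R235.FS.PIB.t_IB) Pool.Agent.R235.FS.PWT.t_WT)
      Pool.Agent.R235.FS.PCJ.t_CJ))

/-- coordinates -/
noncomputable def T : Plane ≃L[ℝ] (Fin 2 → ℝ) := EuclideanSpace.equiv (Fin 2) ℝ

lemma T_symm_single (i : Fin 2) : T.symm (Pi.single i 1) = EuclideanSpace.single i (1 : ℝ) := by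
  apply T.injective
  rw [ContinuousLinearEquiv.apply_symm_apply]
  rfl

lemma FSpd {u : Plane → ℝ} (hu : Smooth u) (i : Fin 2) :
    Pool.Agent.R235.FS.pd i (fun y => u (T.symm y)) = fun y => pd i u (T.symm y) := by
  funext y
  unfold Pool.Agent.R235.FS.pd pd
  have h := (hu.diff (T.symm y)).hasFDerivAt.comp y T.symm.hasFDerivAt
  have h2 : HasFDerivAt (fun y => u (T.symm y)) ((fderiv ℝ u (T.symm y)).comp
    (T.symm : (Fin 2 → ℝ) →L[ℝ] Plane)) y := h
  rw [h2.fderiv, ContinuousLinearMap.comp_apply]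
  exact congrArg _ (T_symm_single i)

/-- unique continuation outside a finite set of the plane -/
theorem uc_plane (S : Set Plane) (hS : S.Finite) (u : Plane → ℝ) (b : Fin 2 → Plane → ℝ)
    (c : Plane → ℝ) (hu : Smooth u) (hb : ∀ i, ContinuousOn (b i) Sᶜ) (hc : ContinuousOn c Sᶜ)
    (heq : ∀ x ∈ Sᶜ, pd 0 (pd 0 u) x + pd 1 (pd 1 u) x + (b 0 x * pd 0 u x + b 1 x * pd 1 u x) +
      c x * u x = 0)
    (O : Set Plane) (hO : IsOpen O) (hne : O.Nonempty) (hOS : O ⊆ Sᶜ) (hO0 : ∀ x ∈ O, u x = 0) :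
    ∀ x ∈ Sᶜ, u x = 0 := by
  have hop : IsOpen Sᶜ := hS.isClosed.isOpen_compl
  have hop' : IsOpen (T.symm ⁻¹' Sᶜ) := hop.preimage T.symm.continuous
  have hsol : Pool.Agent.R235.FS.Sol (n := 2) (T.symm ⁻¹' Sᶜ) (fun _ i j => if i = j then 1 else 0)
      (fun x i => b i (T.symm x)) (fun x => c (T.symm x)) (fun x => u (T.symm x)) := by
    refine ⟨hop', ?_, ?_, ?_, ?_, ?_, ?_⟩
    · intro i j; exact contDiffOn_const
    · intro x _
      refine ⟨fun i j => ?_, fun ξ hξ => ?_⟩
      · by_cases h : i = j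
        · simp [h]
        · simp [h, Ne.symm h]
      · simp only [ite_mul, one_mul, zero_mul, Finset.sum_ite_eq, Finset.mem_univ, if_true]
        have h0 : ∃ i, ξ i ≠ 0 := by
          by_contra hcon
          push Not at hcon
          exact hξ (funext hcon)
        obtain ⟨i, hi⟩ := h0
        exact Finset.sum_pos' (fun j _ => mul_self_nonneg _)
          ⟨i, Finset.mem_univ _, mul_self_pos.2 hi⟩
    · intro i
      exact (hb i).comp T.symm.continuous.continuousOn fun x hx => hx
    · exact hc.comp T.symm.continuous.continuousOn fun x hx => hx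
    · have : ContDiff ℝ ∞ (fun x => u (T.symm x)) := ContDiff.comp hu T.symm.contDiff
      exact this.contDiffOn
    · intro x hx
      have h1 := heq (T.symm x) hx
      simp only [ite_mul, one_mul, zero_mul, Finset.sum_ite_eq, Finset.mem_univ, if_true,
        Fin.sum_univ_two]
      rw [FSpd hu, FSpd hu, FSpd (hu.pd 0), FSpd (hu.pd 1)]
      exact h1
  have hconn : IsPreconnected Sᶜ := by
    refine (Set.Countable.isConnected_compl_of_one_lt_rank ?_ hS.countable).isPreconnected
    rw [← Module.finrank_eq_rank]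
    have : Module.finrank ℝ Plane = 2 := by simp
    rw [this]; norm_num
  have hsub : Sᶜ ⊆ interior {x | u x = 0} := by
    refine hconn.subset_of_closure_inter_subset isOpen_interior ?_ ?_
    · obtain ⟨x, hx⟩ := hne
      exact ⟨x, hOS hx, (interior_maximal (fun y hy => hO0 y hy) hO) hx⟩
    · rintro x0 ⟨hx0, hx0S⟩
      obtain ⟨U, hU, hxU, hU0⟩ := hUC 2 _ _ _ _ _ (T x0) hsol
        (by simpa using hx0S) (by
          intro U hU hxU
          have hU' : IsOpen (T ⁻¹' U) := hU.preimage T.continuous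
          obtain ⟨y, hy1, hy2⟩ := mem_closure_iff.1 hx0 (T ⁻¹' U) hU' hxU
          refine ⟨U ∩ T.symm ⁻¹' (interior {x | u x = 0}), inter_subset_left,
            hU.inter (isOpen_interior.preimage T.symm.continuous), ⟨T y, hy1, ?_⟩, ?_⟩
          · simpa using hy2
          · rintro x ⟨_, hx2⟩
            exact interior_subset (s := {x | u x = 0}) hx2)
      refine interior_maximal (s := {x | u x = 0}) (t := T ⁻¹' U) ?_ (hU.preimage T.continuous) hxU
      intro y hy
      have := hU0 (T y) hy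
      simpa using this
  exact fun x hx => interior_subset (s := {x | u x = 0}) (hsub hx)

end Pool.Agent.K3h8.NX.X7
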